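import Pool.Agent.Run7.h109.JG.SETUP

/-!
# Irreducibility of the sublattice of index two of `D_{8j}^+`
-/

set_option autoImplicit false

namespace Pool.Agent.Run7.h92.JG

open Finset

noncomputable section

lemma ip_self_zero {n : ℕ} {a : Fin n → ℝ} (h : ip a a = 0) : a = 0 := by
  unfold ip at h
  rw [sum_eq_zero_iff_of_nonneg (fun i _ => mul_self_nonneg (a i))] at h
  funext i
  exact mul_self_eq_zero.mp (h i (mem_univ i))

lemma ip_self_nonneg {n : ℕ} (a : Fin n → ℝ) : 0 ≤ ip a a :=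
  sum_nonneg fun i _ => mul_self_nonneg (a i)

/-- an orthogonal decomposition of `L` -/
structure Dec (j : ℕ) (A B : AddSubgroup (Fin (8 * j) → ℝ)) : Prop where
  orth : ∀ a ∈ A, ∀ b ∈ B, ip a b = 0
  sup : A ⊔ B = Llat (8 * j)

lemma Dec.symm {j : ℕ} {A B : AddSubgroup (Fin (8 * j) → ℝ)} (h : Dec j A B) : Dec j B A :=
  ⟨fun b hb a ha => by rw [ip_comm]; exact h.orth a ha b hb, by rw [sup_comm]; exact h.sup⟩

lemma Dec.leM {j : ℕ} {A B : AddSubgroup (Fin (8 * j) → ℝ)} (h : Dec j A B) {a : Fin (8 * j) → ℝ}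
    (ha : a ∈ A) : a ∈ Mlat (8 * j) := by
  have h1 : a ∈ Llat (8 * j) := h.sup ▸ (AddSubgroup.mem_sup_left ha)
  exact h1.1

/-- roots lie in one of the two parts -/
lemma Dec.root {j : ℕ} {A B : AddSubgroup (Fin (8 * j) → ℝ)} (h : Dec j A B)
    {v : Fin (8 * j) → ℝ} (hv : v ∈ Llat (8 * j)) (h2 : ip v v = 2) : v ∈ A ∨ v ∈ B := by
  rw [← h.sup, AddSubgroup.mem_sup] at hv
  obtain ⟨a, ha, b, hb, rfl⟩ := hv
  obtain ⟨m, hm⟩ := even_M j a (h.leM ha)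
  obtain ⟨m', hm'⟩ := even_M j b (h.symm.leM hb)
  have h3 : ip (a + b) (a + b) = ip a a + ip b b := by
    rw [ip_add, ip_comm a (a + b), ip_comm b (a + b), ip_add, ip_add, ip_comm b a,
      h.orth a ha b hb]
    ring
  rw [h3, hm, hm'] at h2
  have h4 : m + m' = 1 := by
    have : (m : ℝ) + m' = 1 := by linarith
    exact_mod_cast this
  have h5 : 0 ≤ m := by
    have := ip_self_nonneg a
    rw [hm] at this
    have h6 : (0 : ℝ) ≤ m := by linarith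
    exact_mod_cast h6
  have h5' : 0 ≤ m' := by
    have := ip_self_nonneg b
    rw [hm'] at this
    have h6 : (0 : ℝ) ≤ m' := by linarith
    exact_mod_cast h6
  rcases (by omega : m = 0 ∨ m' = 0) with h7 | h7
  · right
    have h8 : a = 0 := ip_self_zero (by rw [hm, h7]; simp)
    rw [h8, zero_add]
    exact hb
  · left
    have h8 : b = 0 := ip_self_zero (by rw [hm', h7]; simp)
    rw [h8, add_zero]
    exact ha

/-- a root which is not orthogonal to an element of `A` lies in `A` -/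
lemma Dec.same {j : ℕ} {A B : AddSubgroup (Fin (8 * j) → ℝ)} (h : Dec j A B)
    {v w : Fin (8 * j) → ℝ} (hw : w ∈ A) (hv : v ∈ Llat (8 * j)) (h2 : ip v v = 2)
    (h3 : ip w v ≠ 0) : v ∈ A := by
  rcases h.root hv h2 with h4 | h4
  · exact h4
  · exact absurd (h.orth w hw v h4) h3

lemma norm_add {n : ℕ} {i k : Fin n} (h : i ≠ k) : ip (ev i + ev k) (ev i + ev k) = 2 := by
  rw [ip_add, ip_ev, ip_ev]
  simp only [Pi.add_apply, Pi.single_eq_same, Pi.single_eq_of_ne h, Pi.single_eq_of_ne h.symm]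
  norm_num

lemma norm_sub {n : ℕ} {i k : Fin n} (h : i ≠ k) : ip (ev i - ev k) (ev i - ev k) = 2 := by
  rw [ip_sub, ip_ev, ip_ev]
  simp only [Pi.sub_apply, Pi.single_eq_same, Pi.single_eq_of_ne h, Pi.single_eq_of_ne h.symm]
  norm_num

lemma prod_add {n : ℕ} {i k l : Fin n} (h1 : k ≠ l) (h2 : i ≠ k) (h3 : i ≠ l) :
    ip (ev i + ev l) (ev i + ev k) ≠ 0 := by
  rw [ip_add, ip_ev, ip_ev]
  simp only [Pi.add_apply, Pi.single_eq_same, Pi.single_eq_of_ne h2, Pi.single_eq_of_ne h3.symm,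
    Pi.single_eq_of_ne h1.symm]
  norm_num

lemma prod_sub {n : ℕ} {i k l : Fin n} (h1 : k ≠ l) (h2 : i ≠ k) (h3 : i ≠ l) :
    ip (ev i + ev l) (ev i - ev k) ≠ 0 := by
  rw [ip_add, ip_ev, ip_ev]
  simp only [Pi.sub_apply, Pi.single_eq_same, Pi.single_eq_of_ne h2, Pi.single_eq_of_ne h3.symm,
    Pi.single_eq_of_ne h1.symm]
  norm_num

/-- the index sets `< 4` and `≥ 4` -/
def Good {n : ℕ} (p : Fin n → Prop) : Prop :=
  ∀ i k, p i → p k → ev i + ev k ∈ Llat n ∧ ev i - ev k ∈ Llat n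

lemma good_lt (n : ℕ) : Good (fun i : Fin n => i.val < 4) := by
  intro i k hi hk
  refine ⟨⟨add_mem_M i k, 1, ?_⟩, ⟨sub_mem_M i k, 0, ?_⟩⟩
  · rw [t4_add, t4_ev, t4_ev, if_pos hi, if_pos hk]
    norm_num
  · rw [t4_sub, t4_ev, t4_ev, if_pos hi, if_pos hk]
    norm_num

lemma good_ge (n : ℕ) : Good (fun i : Fin n => ¬ i.val < 4) := by
  intro i k hi hk
  refine ⟨⟨add_mem_M i k, 0, ?_⟩, ⟨sub_mem_M i k, 0, ?_⟩⟩
  · rw [t4_add, t4_ev, t4_ev, if_neg hi, if_neg hk]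
    norm_num
  · rw [t4_sub, t4_ev, t4_ev, if_neg hi, if_neg hk]
    norm_num

/-- if one root is in `A`, then `B` vanishes on the index set -/
lemma Dec.vanish {j : ℕ} {A B : AddSubgroup (Fin (8 * j) → ℝ)} (h : Dec j A B)
    {p : Fin (8 * j) → Prop} (hp : Good p) {i₀ i₁ i₂ : Fin (8 * j)} (h0 : p i₀) (h1 : p i₁)
    (h2 : p i₂) (h01 : i₀ ≠ i₁) (h02 : i₀ ≠ i₂) (h12 : i₁ ≠ i₂) (hA : ev i₀ + ev i₁ ∈ A) :
    ∀ i, p i → ∀ b ∈ B, b i = 0 := by
  have key1 : ∀ k, p k → i₀ ≠ k → k ≠ i₁ → ev i₀ + ev k ∈ A ∧ ev i₀ - ev k ∈ A := by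
    intro k hk h0k hk1
    exact ⟨h.same hA (hp i₀ k h0 hk).1 (norm_add h0k) (prod_add hk1 h0k h01),
      h.same hA (hp i₀ k h0 hk).2 (norm_sub h0k) (prod_sub hk1 h0k h01)⟩
  have key2 := key1 i₂ h2 h02 h12.symm
  have key3 : ev i₀ - ev i₁ ∈ A :=
    h.same key2.1 (hp i₀ i₁ h0 h1).2 (norm_sub h01) (prod_sub h12 h01 h02)
  have key : ∀ k, p k → i₀ ≠ k → ev i₀ + ev k ∈ A ∧ ev i₀ - ev k ∈ A := by
    intro k hk h0k
    by_cases hk1 : k = i₁
    · subst hk1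
      exact ⟨hA, key3⟩
    · exact key1 k hk h0k hk1
  have two : ∀ k, p k → i₀ ≠ k → ∀ b ∈ B, b i₀ = 0 ∧ b k = 0 := by
    intro k hk h0k b hb
    have e1 := h.orth _ (key k hk h0k).1 b hb
    have e2 := h.orth _ (key k hk h0k).2 b hb
    rw [ip_add, ip_ev, ip_ev] at e1
    rw [ip_sub, ip_ev, ip_ev] at e2
    constructor <;> linarith
  intro i hi b hb
  by_cases hi0 : i₀ = i
  · subst hi0
    exact (two i₁ h1 h01 b hb).1
  · exact (two i hi hi0 b hb).2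

lemma Dec.alt {j : ℕ} {A B : AddSubgroup (Fin (8 * j) → ℝ)} (h : Dec j A B)
    {p : Fin (8 * j) → Prop} (hp : Good p) {i₀ i₁ i₂ : Fin (8 * j)} (h0 : p i₀) (h1 : p i₁)
    (h2 : p i₂) (h01 : i₀ ≠ i₁) (h02 : i₀ ≠ i₂) (h12 : i₁ ≠ i₂) :
    (∀ i, p i → ∀ b ∈ B, b i = 0) ∨ (∀ i, p i → ∀ a ∈ A, a i = 0) := by
  rcases h.root (hp i₀ i₁ h0 h1).1 (norm_add h01) with h3 | h3
  · exact Or.inl (h.vanish hp h0 h1 h2 h01 h02 h12 h3)
  · exact Or.inr (h.symm.vanish hp h0 h1 h2 h01 h02 h12 h3)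

/-- the mixed case is impossible -/
lemma Dec.mixed {j : ℕ} (hj : 1 ≤ j) {A B : AddSubgroup (Fin (8 * j) → ℝ)} (h : Dec j A B)
    (hB : ∀ i : Fin (8 * j), i.val < 4 → ∀ b ∈ B, b i = 0)
    (hA : ∀ i : Fin (8 * j), ¬ i.val < 4 → ∀ a ∈ A, a i = 0) : False := by
  have hh : hv (8 * j) ∈ Llat (8 * j) := ⟨h_mem_M j, 1, by rw [t4_h j hj]; norm_num⟩
  rw [← h.sup, AddSubgroup.mem_sup] at hh
  obtain ⟨a, ha, b, hb, hab⟩ := hh
  have h0 : a ⟨0, by omega⟩ = 1 / 2 := by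
    have e1 := congrFun hab ⟨0, by omega⟩
    have e2 := hB ⟨0, by omega⟩ (by norm_num) b hb
    rw [Pi.add_apply, e2, add_zero] at e1
    exact e1
  have h4 : a ⟨4, by omega⟩ = 0 := hA ⟨4, by omega⟩ (by norm_num) a ha
  rcases (h.leM ha).1 with h5 | h5
  · obtain ⟨m, hm⟩ := h5 ⟨0, by omega⟩
    rw [h0] at hm
    have : (1 : ℤ) = 2 * m := by
      have h6 : (1 : ℝ) = 2 * m := by linarith
      exact_mod_cast h6
    omega
  · obtain ⟨m, hm⟩ := h5 ⟨4, by omega⟩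
    rw [h4] at hm
    have : (0 : ℤ) = 2 * m + 1 := by
      have h6 : (0 : ℝ) = 2 * m + 1 := by linarith
      exact_mod_cast h6
    omega

lemma bot_of {j : ℕ} {B : AddSubgroup (Fin (8 * j) → ℝ)}
    (h1 : ∀ i : Fin (8 * j), i.val < 4 → ∀ b ∈ B, b i = 0)
    (h2 : ∀ i : Fin (8 * j), ¬ i.val < 4 → ∀ b ∈ B, b i = 0) : B = ⊥ := by
  rw [eq_bot_iff]
  intro b hb
  rw [AddSubgroup.mem_bot]
  funext i
  by_cases h : i.val < 4
  · exact h1 i h b hb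
  · exact h2 i h b hb

theorem t_IRR : S_IRR := by
  rintro j hj ⟨A, B, hA, hB, horth, hsup⟩
  have h : Dec j A B := ⟨horth, hsup⟩
  have ne : ∀ {a b : ℕ} (ha : a < 8 * j) (hb : b < 8 * j), a ≠ b →
      (⟨a, ha⟩ : Fin (8 * j)) ≠ ⟨b, hb⟩ := by
    intro a b ha hb hab h
    exact hab (congrArg Fin.val h)
  have c1 := h.alt (good_lt (8 * j)) (i₀ := ⟨0, by omega⟩) (i₁ := ⟨1, by omega⟩)
    (i₂ := ⟨2, by omega⟩) (by norm_num) (by norm_num) (by norm_num) (ne _ _ (by norm_num))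
    (ne _ _ (by norm_num)) (ne _ _ (by norm_num))
  have c2 := h.alt (good_ge (8 * j)) (i₀ := ⟨4, by omega⟩) (i₁ := ⟨5, by omega⟩)
    (i₂ := ⟨6, by omega⟩) (by norm_num) (by norm_num) (by norm_num) (ne _ _ (by norm_num))
    (ne _ _ (by norm_num)) (ne _ _ (by norm_num))
  rcases c1 with c1 | c1 <;> rcases c2 with c2 | c2
  · exact hB (bot_of c1 c2)
  · exact h.mixed hj c1 c2
  · exact h.symm.mixed hj c1 c2
  · exact hA (bot_of c1 c2)

end

end Pool.Agent.Run7.h92.JG
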