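import Pool.Agent.Run7.h92.JG.Stm

/-!
# The lattice `D_{8j}^+` and the sublattice of index two
-/

set_option autoImplicit false

namespace Pool.Agent.Run7.h92.JG

open Finset

noncomputable section

/-- the unit vector -/
abbrev ev {n : ℕ} (i : Fin n) : Fin n → ℝ := Pi.single i 1

/-- the vector `(1/2, …, 1/2)` -/
def hv (n : ℕ) : Fin n → ℝ := fun _ => 1 / 2

lemma ip_add {n : ℕ} (x y z : Fin n → ℝ) : ip (x + y) z = ip x z + ip y z := by
  simp only [ip, Pi.add_apply, add_mul, sum_add_distrib]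

lemma ip_sub {n : ℕ} (x y z : Fin n → ℝ) : ip (x - y) z = ip x z - ip y z := by
  simp only [ip, Pi.sub_apply, sub_mul, sum_sub_distrib]

lemma ip_comm {n : ℕ} (x y : Fin n → ℝ) : ip x y = ip y x := by
  simp only [ip, mul_comm]

lemma ip_ev {n : ℕ} (i : Fin n) (z : Fin n → ℝ) : ip (ev i) z = z i := by
  simp [ip, Pi.single_apply]

lemma t4_add {n : ℕ} (v w : Fin n → ℝ) : t4 (v + w) = t4 v + t4 w := by
  unfold t4
  rw [← Finset.sum_add_distrib]
  refine Finset.sum_congr rfl fun i _ => ?_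
  by_cases h : i.val < 4 <;> simp [h]

lemma t4_sub {n : ℕ} (v w : Fin n → ℝ) : t4 (v - w) = t4 v - t4 w := by
  unfold t4
  rw [← Finset.sum_sub_distrib]
  refine Finset.sum_congr rfl fun i _ => ?_
  by_cases h : i.val < 4 <;> simp [h]

lemma t4_ev {n : ℕ} (i : Fin n) : t4 (ev i) = if i.val < 4 then 1 else 0 := by
  unfold t4
  rw [Finset.sum_eq_single i]
  · simp
  · intro k _ hk
    simp [hk]
  · intro h
    exact absurd (mem_univ i) h

lemma sum_ev {n : ℕ} (i : Fin n) : ∑ k, ev i k = 1 := by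
  simp [Pi.single_apply]

lemma ev_int {n : ℕ} (i k : Fin n) : ∃ a : ℤ, ev i k = a := by
  by_cases h : k = i
  · exact ⟨1, by simp [h]⟩
  · exact ⟨0, by simp [h]⟩

lemma add_mem_M {n : ℕ} (i k : Fin n) : ev i + ev k ∈ Mlat n := by
  refine ⟨Or.inl fun l => ?_, 1, ?_⟩
  · obtain ⟨a, ha⟩ := ev_int i l
    obtain ⟨b, hb⟩ := ev_int k l
    exact ⟨a + b, by rw [Pi.add_apply, ha, hb]; push_cast; ring⟩
  · simp only [Pi.add_apply, sum_add_distrib, sum_ev]
    norm_num

lemma sub_mem_M {n : ℕ} (i k : Fin n) : ev i - ev k ∈ Mlat n := by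
  refine ⟨Or.inl fun l => ?_, 0, ?_⟩
  · obtain ⟨a, ha⟩ := ev_int i l
    obtain ⟨b, hb⟩ := ev_int k l
    exact ⟨a - b, by rw [Pi.sub_apply, ha, hb]; push_cast; ring⟩
  · simp only [Pi.sub_apply, sum_sub_distrib, sum_ev]
    norm_num

lemma h_mem_M (j : ℕ) : hv (8 * j) ∈ Mlat (8 * j) := by
  refine ⟨Or.inr fun l => ⟨0, by simp [hv]⟩, 2 * j, ?_⟩
  simp only [hv, sum_const, card_univ, Fintype.card_fin, nsmul_eq_mul]
  push_cast
  ring

lemma t4_h (j : ℕ) (hj : 1 ≤ j) : t4 (hv (8 * j)) = 2 := by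
  unfold t4 hv
  rw [Fin.sum_univ_eq_sum_range (fun i => if i < 4 then (1 / 2 : ℝ) else 0)]
  obtain ⟨m, hm⟩ : ∃ m, 8 * j = m + 4 := ⟨8 * j - 4, by omega⟩
  rw [hm, sum_range_succ', sum_range_succ', sum_range_succ', sum_range_succ']
  have h0 : (∑ x ∈ range m, if x + 1 + 1 + 1 + 1 < 4 then (1 / 2 : ℝ) else 0) = 0 := by
    apply sum_eq_zero
    intro x _
    rw [if_neg (by omega)]
  rw [h0]
  norm_num

lemma even_M (j : ℕ) : ∀ x ∈ Mlat (8 * j), ∃ m : ℤ, ip x x = 2 * m := by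
  rintro x ⟨hx, m, hm⟩
  rcases hx with hx | hx
  · choose a ha using hx
    have hb : ∀ i, ∃ b : ℤ, a i * a i = a i + 2 * b := by
      intro i
      obtain ⟨b, hb⟩ := Int.even_mul_pred_self (a i)
      exact ⟨b, by linarith [mul_sub_one (a i) (a i)]⟩
    choose b hb using hb
    refine ⟨m + ∑ i, b i, ?_⟩
    have h1 : ip x x = ∑ i, ((a i : ℝ) + 2 * b i) := by
      unfold ip
      refine sum_congr rfl fun i _ => ?_
      rw [ha i]
      exact_mod_cast hb i
    have h2 : ∑ i, (a i : ℝ) = 2 * m := by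
      rw [← hm]
      exact sum_congr rfl fun i _ => (ha i).symm
    rw [h1, sum_add_distrib, h2, ← mul_sum]
    push_cast
    ring
  · choose a ha using hx
    have hb : ∀ i, ∃ b : ℤ, a i * a i + a i = 2 * b := by
      intro i
      obtain ⟨b, hb⟩ := Int.even_mul_succ_self (a i)
      exact ⟨b, by linarith [mul_add_one (a i) (a i)]⟩
    choose b hb using hb
    refine ⟨j + ∑ i, b i, ?_⟩
    have h1 : ip x x = ∑ i, (2 * (b i : ℝ) + 1 / 4) := by
      unfold ip
      refine sum_congr rfl fun i _ => ?_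
      rw [ha i]
      have : (a i : ℝ) * a i + a i = 2 * b i := by exact_mod_cast hb i
      linarith [this, mul_self_nonneg (a i : ℝ), (by ring : ((a i : ℝ) + 1 / 2) * (a i + 1 / 2) =
        (a i * a i + a i) + 1 / 4)]
    rw [h1, sum_add_distrib, ← mul_sum]
    simp only [sum_const, card_univ, Fintype.card_fin, nsmul_eq_mul]
    push_cast
    ring

lemma rr_eq (j : ℕ) (hj : 1 ≤ j) :
    rr (8 * j) = ev (⟨0, by omega⟩ : Fin (8 * j)) + ev (⟨4, by omega⟩ : Fin (8 * j)) := by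
  funext i
  by_cases h0 : i.val = 0
  · have h1 : i = ⟨0, by omega⟩ := Fin.ext h0
    have h2 : i ≠ ⟨4, by omega⟩ := fun h => by rw [h] at h0; simp at h0
    simp only [rr, h0, true_or, if_true, Pi.add_apply]
    rw [ev, ev, Pi.single_apply, if_pos h1, Pi.single_apply, if_neg h2, add_zero]
  · have h1 : i ≠ ⟨0, by omega⟩ := fun h => h0 (by rw [h])
    by_cases h4 : i.val = 4
    · have h2 : i = ⟨4, by omega⟩ := Fin.ext h4
      simp only [rr, h4, or_true, if_true, Pi.add_apply]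
      rw [ev, ev, Pi.single_apply, if_neg h1, Pi.single_apply, if_pos h2, zero_add]
    · have h2 : i ≠ ⟨4, by omega⟩ := fun h => h4 (by rw [h])
      simp only [rr, h0, h4, or_self, if_false, Pi.add_apply]
      rw [ev, ev, Pi.single_apply, if_neg h1, Pi.single_apply, if_neg h2, zero_add]

lemma t4_rr (j : ℕ) (hj : 1 ≤ j) : t4 (rr (8 * j)) = 1 := by
  rw [rr_eq j hj, t4_add, t4_ev, t4_ev]
  norm_num

lemma t4_int (j : ℕ) (hj : 1 ≤ j) : ∀ x ∈ Mlat (8 * j), ∃ t : ℤ, t4 x = t := by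
  rintro x ⟨hx, -⟩
  rcases hx with hx | hx
  · choose a ha using hx
    refine ⟨∑ i, if i.val < 4 then a i else 0, ?_⟩
    unfold t4
    push_cast
    refine sum_congr rfl fun i _ => ?_
    by_cases h : i.val < 4 <;> simp [h, ha]
  · choose a ha using hx
    refine ⟨(∑ i, if i.val < 4 then a i else 0) + 2, ?_⟩
    have h1 : x = (fun i => (a i : ℝ)) + hv (8 * j) := by
      funext i
      rw [ha i]
      rfl
    rw [h1, t4_add, t4_h j hj]
    unfold t4
    push_cast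
    congr 1

lemma self_M (j : ℕ) (hj : 1 ≤ j) (y : Fin (8 * j) → ℝ)
    (hy : ∀ x ∈ Mlat (8 * j), ∃ m : ℤ, ip x y = m) : y ∈ Mlat (8 * j) := by
  have h0 : ∀ i k, ∃ m : ℤ, y i - y k = m := by
    intro i k
    obtain ⟨m, hm⟩ := hy _ (sub_mem_M i k)
    exact ⟨m, by rw [← hm, ip_sub, ip_ev, ip_ev]⟩
  have h1 : ∀ i, ∃ m : ℤ, y i + y i = m := by
    intro i
    obtain ⟨m, hm⟩ := hy _ (add_mem_M i i)
    exact ⟨m, by rw [← hm, ip_add, ip_ev]⟩
  refine ⟨?_, ?_⟩
  · obtain ⟨m, hm⟩ := h1 ⟨0, by omega⟩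
    rcases Int.even_or_odd' m with ⟨c, hc | hc⟩
    · refine Or.inl fun i => ?_
      obtain ⟨l, hl⟩ := h0 i ⟨0, by omega⟩
      refine ⟨l + c, ?_⟩
      have : (m : ℝ) = 2 * c := by exact_mod_cast hc
      push_cast
      linarith
    · refine Or.inr fun i => ?_
      obtain ⟨l, hl⟩ := h0 i ⟨0, by omega⟩
      refine ⟨l + c, ?_⟩
      have : (m : ℝ) = 2 * c + 1 := by exact_mod_cast hc
      push_cast
      linarith
  · obtain ⟨m, hm⟩ := hy _ (h_mem_M j)
    refine ⟨m, ?_⟩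
    have : ip (hv (8 * j)) y = 1 / 2 * ∑ i, y i := by
      unfold ip hv
      rw [mul_sum]
    rw [this] at hm
    linarith

theorem t_SETUP : S_SETUP := by
  intro j hj
  have hr : rr (8 * j) ∈ Mlat (8 * j) := by
    rw [rr_eq j hj]
    exact add_mem_M _ _
  refine ⟨even_M j, self_M j hj, fun x hx => hx.1, hr, ?_, ?_, ?_, ?_⟩
  · rintro ⟨-, m, hm⟩
    rw [t4_rr j hj] at hm
    have : (1 : ℤ) = 2 * m := by exact_mod_cast hm
    omega
  · have hne : (⟨0, by omega⟩ : Fin (8 * j)) ≠ ⟨4, by omega⟩ := by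
      intro h
      have := congrArg Fin.val h
      simp at this
    rw [rr_eq j hj, ip_add, ip_ev, ip_ev]
    simp only [Pi.add_apply, Pi.single_eq_same, Pi.single_eq_of_ne hne, Pi.single_eq_of_ne hne.symm]
    norm_num
  · refine ⟨(Mlat _).add_mem hr hr, 1, ?_⟩
    rw [t4_add, t4_rr j hj]
    norm_num
  · intro x hx
    obtain ⟨t, ht⟩ := t4_int j hj x hx
    rcases Int.even_or_odd' t with ⟨c, hc | hc⟩
    · exact Or.inl ⟨hx, c, by rw [ht, hc]; push_cast; ring⟩
    · refine Or.inr ⟨(Mlat _).sub_mem hx hr, c, ?_⟩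
      rw [t4_sub, ht, t4_rr j hj, hc]
      push_cast
      ring

end

end Pool.Agent.Run7.h92.JG
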